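import Pool.Agent.Run7.h738.ND.Inst
import Pool.Agent.W840.CT.Pair

/-! # Close pairs of points of two disjoint walks -/

set_option autoImplicit false

namespace Run7.h738.NC

open scoped Classical
open Pool.Agent.W840.CT Run7.h738.ND
open Pool.Agent.TH546.SG (CU2)

/-- number of close pairs of points of two walks -/
noncomputable def NN (r : ℕ) {n m : ℕ} (w : Fin (n + 1) → ℤ × ℤ) (w' : Fin (m + 1) → ℤ × ℤ) : ℕ :=
  ((Finset.univ : Finset (Fin (n + 1) × Fin (m + 1))).filter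
    (fun q => q.1 ≠ 0 ∧ q.2 ≠ 0 ∧ D (w q.1) (w' q.2) ≤ r)).card

theorem NN_le (r : ℕ) {n m : ℕ} {w : Fin (n + 1) → ℤ × ℤ} {w' : Fin (m + 1) → ℤ × ℤ} (h : SW n w)
    (h' : SW m w') : NN r w w' ≤ KW r (li w).toFinset (li w').toFinset := by
  unfold NN KW
  refine Finset.card_le_card_of_injOn (fun q => (w q.1, w' q.2)) ?_ ?_
  · rintro ⟨i, j⟩ hq
    simp only [Finset.coe_filter, Finset.mem_univ, true_and, Set.mem_ofPred_eq] at hq
    obtain ⟨h1, h2, h3⟩ := hq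
    simp only [Finset.coe_filter, Finset.mem_product, Finset.mem_erase, List.mem_toFinset,
      Set.mem_ofPred_eq]
    refine ⟨⟨⟨?_, ?_⟩, ?_, ?_⟩, h3⟩
    · intro h4
      exact h1 (h.2.2 (h4.trans h.1.symm))
    · unfold li
      rw [List.mem_map]
      exact ⟨i.1, List.mem_range.2 i.2, ex_val w i⟩
    · intro h4
      exact h2 (h'.2.2 (h4.trans h'.1.symm))
    · unfold li
      rw [List.mem_map]
      exact ⟨j.1, List.mem_range.2 j.2, ex_val w' j⟩
  · rintro ⟨i, j⟩ hq ⟨i', j'⟩ hq' h4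
    simp only [Prod.mk.injEq] at h4
    rw [Prod.mk.injEq]
    exact ⟨h.2.2 h4.1, h'.2.2 h4.2⟩

theorem pairN_card (w n m J : ℕ) :
    ({q | SW n q.1 ∧ SW m q.2 ∧ DJ q.1 q.2 ∧ J ≤ NN w q.1 q.2} :
      Set ((Fin (n + 1) → ℤ × ℤ) × (Fin (m + 1) → ℤ × ℤ))).ncard ≤ (PW w n m J).ncard := by
  refine Set.ncard_le_ncard_of_injOn (fun q => (li q.1, li q.2)) ?_ ?_ (PW_finite _ _ _ _)
  · rintro ⟨w, w'⟩ ⟨h1, h2, h3, h4⟩
    simp only at h1 h2 h3 h4
    refine ⟨li_mem h1, li_mem h2, ?_, h4.trans (NN_le _ h1 h2)⟩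
    intro v hv hv'
    simp only at hv hv'
    unfold li at hv hv'
    rw [List.mem_map] at hv hv'
    obtain ⟨j, hj, rfl⟩ := hv
    obtain ⟨i, hi, hij⟩ := hv'
    rw [List.mem_range] at hi hj
    have e1 := ex_val w ⟨i, hi⟩
    have e2 := ex_val w' ⟨j, hj⟩
    simp only at e1 e2
    have h5 := h3 ⟨i, hi⟩ ⟨j, hj⟩ (by rw [← e1, ← e2]; exact hij)
    have h6 : j = 0 := by
      have := congrArg Fin.val h5.2
      simpa using this
    rw [h6]
    exact h2.zero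
  · rintro ⟨w, w'⟩ - ⟨u, u'⟩ - h
    simp only [Prod.mk.injEq] at h
    rw [Prod.mk.injEq]
    exact ⟨li_inj h.1, li_inj h.2⟩

theorem SWn (n : ℕ) : (({ω | SW n ω} : Set (Fin (n + 1) → ℤ × ℤ)).ncard : ℝ) = cn n := by
  unfold cn
  exact_mod_cast (Nat.card_coe_set_eq _).symm

/-- the base of the constant -/
noncomputable def K1 : ℝ := 13824 * 81 * 15129 * 294912

theorem K1_pos : 1 < K1 := by
  unfold K1
  norm_num

theorem tailN (w n m J : ℕ) (hw : 1 ≤ w) :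
    (({q | SW n q.1 ∧ SW m q.2 ∧ DJ q.1 q.2 ∧ J ≤ NN w q.1 q.2} :
      Set ((Fin (n + 1) → ℤ × ℤ) × (Fin (m + 1) → ℤ × ℤ))).ncard : ℝ) ≤
    K1 ^ w * Real.exp (-(J / K1 ^ w)) * (cn n * cn m) := by
  have ha : 0 < Sl w := (cnt_w w hw).1
  have hC : 0 < Pf w := (cnt_w w hw).2.1
  have hG : 0 < G w := by unfold G; positivity
  have hGS : G w ≤ Sl w := by
    unfold Sl
    refine Nat.le_mul_of_pos_right _ ?_
    exact Finset.sum_pos (fun e _ => Kc_pos e) ⟨0, Finset.mem_range.2 hw⟩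
  set r := (J - 3 * G w) / Sl w with hr
  have hf : ({q | SW n q.1 ∧ SW m q.2} :
      Set ((Fin (n + 1) → ℤ × ℤ) × (Fin (m + 1) → ℤ × ℤ))).Finite :=
    ((SW_finite n).prod (SW_finite m)).subset (fun q hq => ⟨hq.1, hq.2⟩)
  set S := (({q | SW n q.1 ∧ SW m q.2 ∧ DJ q.1 q.2 ∧ J ≤ NN w q.1 q.2} :
      Set ((Fin (n + 1) → ℤ × ℤ) × (Fin (m + 1) → ℤ × ℤ))).ncard : ℝ) with hS
  have hCr : (1 : ℝ) ≤ Pf w := by exact_mod_cast hC
  have hcn := cn_pos n
  have hcm := cn_pos m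
  have hkey : (4 : ℝ) ^ r * S ≤ Pf w * ((cn n : ℝ) * cn m) := by
    rcases Nat.lt_or_ge J (3 * G w) with hJ | hJ
    · have hr0 : r = 0 := by
        rw [hr, Nat.sub_eq_zero_of_le hJ.le, Nat.zero_div]
      rw [hr0, pow_zero, one_mul]
      have h1 : ({q | SW n q.1 ∧ SW m q.2 ∧ DJ q.1 q.2 ∧ J ≤ NN w q.1 q.2} :
          Set ((Fin (n + 1) → ℤ × ℤ) × (Fin (m + 1) → ℤ × ℤ))).ncard ≤
          (({ω | SW n ω} : Set (Fin (n + 1) → ℤ × ℤ)) ×ˢ
            ({ω | SW m ω} : Set (Fin (m + 1) → ℤ × ℤ))).ncard :=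
        Set.ncard_le_ncard (fun q hq => ⟨hq.1, hq.2.1⟩) ((SW_finite n).prod (SW_finite m))
      rw [Set.ncard_prod] at h1
      have h4 : S ≤ cn n * cn m := by
        rw [← SWn, ← SWn, hS]
        exact_mod_cast h1
      have h5 : (0 : ℝ) ≤ cn n * cn m := by positivity
      nlinarith
    · have h1 := PW_card w n m r hw
      have hle : Sl w * r + 3 * G w ≤ J := by
        have := Nat.mul_div_le (J - 3 * G w) (Sl w)
        rw [← hr] at this
        omega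
      have h2 : ({q | SW n q.1 ∧ SW m q.2 ∧ DJ q.1 q.2 ∧ J ≤ NN w q.1 q.2} :
          Set ((Fin (n + 1) → ℤ × ℤ) × (Fin (m + 1) → ℤ × ℤ))).ncard ≤
          ({q | SW n q.1 ∧ SW m q.2 ∧ DJ q.1 q.2 ∧ Sl w * r + 3 * G w ≤ NN w q.1 q.2} :
          Set ((Fin (n + 1) → ℤ × ℤ) × (Fin (m + 1) → ℤ × ℤ))).ncard :=
        Set.ncard_le_ncard (fun q hq => ⟨hq.1, hq.2.1, hq.2.2.1, hle.trans hq.2.2.2⟩)
          (hf.subset (fun q hq => ⟨hq.1, hq.2.1⟩))
      have h3 := ((Nat.mul_le_mul_left (4 ^ r) (h2.trans (pairN_card w n m _))).trans h1).trans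
        (Nat.mul_le_mul_left _ (Nat.mul_le_mul (LS_le n) (LS_le m)))
      have h4 : (4 : ℝ) ^ r * S ≤ Pf w * ((Nat.card {ω : Fin (n + 1) → ℤ × ℤ // SW n ω} : ℕ) *
          (Nat.card {ω : Fin (m + 1) → ℤ × ℤ // SW m ω} : ℕ) : ℝ) := by
        rw [hS]
        exact_mod_cast h3
      exact h4
  have h6 := four_pow_ge r
  have hSl : (0 : ℝ) < Sl w := by exact_mod_cast ha
  have hJr : (J : ℝ) / Sl w - 4 ≤ r := by
    have h1 : J < Sl w * (r + 1) + 3 * G w := by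
      have := Nat.lt_mul_div_succ (J - 3 * G w) ha
      rw [← hr] at this
      omega
    have h2 : J < Sl w * (r + 4) := by nlinarith
    have h3 : (J : ℝ) < Sl w * (r + 4) := by exact_mod_cast h2
    have h4 : (J : ℝ) / Sl w < r + 4 := by
      rw [div_lt_iff₀ hSl]
      linarith
    linarith
  have hSlK : (Sl w : ℝ) ≤ K1 ^ w := by
    have h1 : Sl w ≤ 15129 ^ w * 294912 ^ w := Nat.mul_le_mul (G_pow w hw) (Kc_sum w)
    have h2 : (Sl w : ℝ) ≤ 15129 ^ w * 294912 ^ w := by exact_mod_cast h1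
    refine h2.trans ?_
    rw [← mul_pow]
    refine pow_le_pow_left₀ (by norm_num) ?_ w
    unfold K1
    norm_num
  have hPK : (Pf w : ℝ) * Real.exp 4 ≤ K1 ^ w := by
    have h1 : (Pf w : ℝ) ≤ 13824 ^ w := by exact_mod_cast Pf_pow w
    have h2 : Real.exp 4 ≤ 81 := by
      have h3 : Real.exp 1 ≤ 3 := by
        have := Real.exp_one_lt_d9
        linarith
      calc Real.exp 4 = Real.exp 1 ^ 4 := by rw [← Real.exp_nat_mul]; norm_num
        _ ≤ 3 ^ 4 := pow_le_pow_left₀ (Real.exp_pos _).le h3 4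
        _ = 81 := by norm_num
    have h3 : Real.exp 4 ≤ (81 : ℝ) ^ w := h2.trans (le_self_pow₀ (by norm_num) (by omega))
    calc (Pf w : ℝ) * Real.exp 4 ≤ 13824 ^ w * 81 ^ w :=
          mul_le_mul h1 h3 (Real.exp_pos _).le (by positivity)
      _ = (13824 * 81) ^ w := by rw [mul_pow]
      _ ≤ K1 ^ w := by
          refine pow_le_pow_left₀ (by norm_num) ?_ w
          unfold K1
          norm_num
  have h7 : Real.exp r * S ≤ Pf w * ((cn n : ℝ) * cn m) :=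
    (mul_le_mul_of_nonneg_right h6 (Nat.cast_nonneg _)).trans hkey
  have h8 : S = Real.exp (-(r : ℝ)) * (Real.exp r * S) := by
    rw [← mul_assoc, ← Real.exp_add, neg_add_cancel, Real.exp_zero, one_mul]
  have hK1 : 0 < K1 ^ w := by
    have := K1_pos
    positivity
  have h9 : Real.exp (-(r : ℝ)) ≤ Real.exp 4 * Real.exp (-(J / K1 ^ w)) := by
    rw [← Real.exp_add]
    refine Real.exp_le_exp.2 ?_
    have h10 : (J : ℝ) / K1 ^ w ≤ J / Sl w :=
      div_le_div_of_nonneg_left (Nat.cast_nonneg _) hSl hSlK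
    linarith
  have hcc : (0 : ℝ) ≤ cn n * cn m := by positivity
  calc S = Real.exp (-(r : ℝ)) * (Real.exp r * S) := h8
    _ ≤ Real.exp (-(r : ℝ)) * (Pf w * ((cn n : ℝ) * cn m)) :=
        mul_le_mul_of_nonneg_left h7 (Real.exp_pos _).le
    _ ≤ (Real.exp 4 * Real.exp (-(J / K1 ^ w))) * (Pf w * ((cn n : ℝ) * cn m)) :=
        mul_le_mul_of_nonneg_right h9 (by positivity)
    _ = (Pf w * Real.exp 4) * Real.exp (-(J / K1 ^ w)) * (cn n * cn m) := by ring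
    _ ≤ _ := by
        refine mul_le_mul_of_nonneg_right (mul_le_mul_of_nonneg_right hPK (Real.exp_pos _).le) hcc

/-- **Both tails.** -/
theorem tail_both : ∃ K : ℝ, 1 < K ∧ (∀ w n m J : ℕ, 1 ≤ w →
    (({q | SW n q.1 ∧ SW m q.2 ∧ DJ q.1 q.2 ∧ J ≤ NN w q.1 q.2} :
      Set ((Fin (n + 1) → ℤ × ℤ) × (Fin (m + 1) → ℤ × ℤ))).ncard : ℝ) ≤
      K ^ w * Real.exp (-(J / K ^ w)) * (cn n * cn m)) ∧
    (∀ w n m : ℕ, 1 ≤ w → 2 ≤ n + m → ∀ x : ℝ, 0 ≤ x →
    (({q | SW n q.1 ∧ SW m q.2 ∧ DJ q.1 q.2 ∧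
        K ^ w * (Real.log (n + m) ^ 2 + x) ≤ NN w q.1 q.2} :
      Set ((Fin (n + 1) → ℤ × ℤ) × (Fin (m + 1) → ℤ × ℤ))).ncard : ℝ) ≤
      Real.exp (-x) * (({q | SW n q.1 ∧ SW m q.2 ∧ DJ q.1 q.2} :
      Set ((Fin (n + 1) → ℤ × ℤ) × (Fin (m + 1) → ℤ × ℤ))).ncard : ℝ)) := by
  obtain ⟨K, hK, hu⟩ := CU2
  have hK1 := K1_pos
  have hlK := Real.log_pos hK1
  set K3 : ℝ := 1 + (2 * K + 3 * Real.log K1) with hK3
  have hK3' : 1 < K3 := by rw [hK3]; nlinarith
  have hle : K1 ≤ K1 * K3 := by nlinarith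
  refine ⟨K1 * K3, by nlinarith, fun w n m J hw => ?_, fun w n m hw hnm x hx => ?_⟩
  · refine (tailN w n m J hw).trans ?_
    have h0 : 0 < K1 ^ w := by positivity
    have h1 : K1 ^ w ≤ (K1 * K3) ^ w := pow_le_pow_left₀ (by positivity) hle w
    refine mul_le_mul_of_nonneg_right ?_ (by positivity)
    refine mul_le_mul h1 (Real.exp_le_exp.2 ?_) (Real.exp_pos _).le (by positivity)
    exact neg_le_neg (div_le_div_of_nonneg_left (Nat.cast_nonneg _) h0 h1)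
  · set N := n + m with hN
    have hN' : (2 : ℝ) ≤ (n : ℝ) + m := by exact_mod_cast hnm
    have hNc : ((n : ℝ) + m) = ((N : ℕ) : ℝ) := by rw [hN]; push_cast; ring
    set L := Real.log ((n : ℝ) + m) with hL
    have hlog2 : (0.69 : ℝ) < Real.log 2 := by
      have := Real.log_two_gt_d9
      linarith
    have hlogN : (0.69 : ℝ) < L := hlog2.trans_le (Real.log_le_log (by norm_num) hN')
    have hL2 : (0.47 : ℝ) ≤ L ^ 2 := by nlinarith
    set J := ⌈(K1 * K3) ^ w * (L ^ 2 + x)⌉₊ with hJ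
    have h1 := tailN w n m J hw
    have hsub : ({q | SW n q.1 ∧ SW m q.2 ∧ DJ q.1 q.2 ∧
        (K1 * K3) ^ w * (L ^ 2 + x) ≤ NN w q.1 q.2} :
        Set ((Fin (n + 1) → ℤ × ℤ) × (Fin (m + 1) → ℤ × ℤ))) ⊆
        {q | SW n q.1 ∧ SW m q.2 ∧ DJ q.1 q.2 ∧ J ≤ NN w q.1 q.2} := by
      rintro q ⟨a1, a2, a3, a4⟩
      exact ⟨a1, a2, a3, Nat.ceil_le.2 a4⟩
    have hfin : ({q | SW n q.1 ∧ SW m q.2 ∧ DJ q.1 q.2 ∧ J ≤ NN w q.1 q.2} :
        Set ((Fin (n + 1) → ℤ × ℤ) × (Fin (m + 1) → ℤ × ℤ))).Finite :=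
      ((SW_finite n).prod (SW_finite m)).subset (fun q hq => ⟨hq.1, hq.2.1⟩)
    have h2 := Set.ncard_le_ncard hsub hfin
    have h2' : (({q | SW n q.1 ∧ SW m q.2 ∧ DJ q.1 q.2 ∧
        (K1 * K3) ^ w * (L ^ 2 + x) ≤ NN w q.1 q.2} :
        Set ((Fin (n + 1) → ℤ × ℤ) × (Fin (m + 1) → ℤ × ℤ))).ncard : ℝ) ≤
        K1 ^ w * Real.exp (-(J / K1 ^ w)) * (cn n * cn m) := by
      refine le_trans ?_ h1
      exact_mod_cast h2
    refine h2'.trans ?_
    have h3 := hu N hnm n (by omega)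
    have h3' := hu N hnm m (by omega)
    rw [← hNc, ← hL] at h3 h3'
    have hmu := mu_pos
    have h4 : (cn n : ℝ) * cn m ≤ Real.exp (2 * (K * L ^ 2)) * cn (n + m) := by
      calc (cn n : ℝ) * cn m ≤ (H981.mu ^ n * Real.exp (K * L ^ 2)) *
            (H981.mu ^ m * Real.exp (K * L ^ 2)) :=
              mul_le_mul h3 h3' (by positivity) (by positivity)
        _ = Real.exp (2 * (K * L ^ 2)) * H981.mu ^ (n + m) := by
            rw [two_mul, Real.exp_add, pow_add]; ring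
        _ ≤ _ := mul_le_mul_of_nonneg_left (mu_pow_le_cn _) (Real.exp_pos _).le
    have h5 : (cn (n + m) : ℝ) ≤ (({q | SW n q.1 ∧ SW m q.2 ∧ DJ q.1 q.2} :
        Set ((Fin (n + 1) → ℤ × ℤ) × (Fin (m + 1) → ℤ × ℤ))).ncard : ℝ) := by
      exact_mod_cast disj_ge n m
    have h0 : 0 < K1 ^ w := by positivity
    have h6 : K1 ^ w * Real.exp (-(J / K1 ^ w)) ≤
        Real.exp (-x) * Real.exp (-(2 * (K * L ^ 2))) := by
      have e1 : K1 ^ w = Real.exp (w * Real.log K1) := by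
        rw [Real.exp_nat_mul, Real.exp_log (by linarith)]
      have h7 : (K1 * K3) ^ w * (L ^ 2 + x) ≤ J := Nat.le_ceil _
      have h8 : K3 ^ w * (L ^ 2 + x) ≤ J / K1 ^ w := by
        rw [le_div_iff₀ h0]
        rw [mul_pow] at h7
        linarith
      have h9 : 1 + w * (2 * K + 3 * Real.log K1) ≤ K3 ^ w :=
        one_add_mul_le_pow (by nlinarith) w
      have hw' : (1 : ℝ) ≤ w := by exact_mod_cast hw
      have h10 : 1 + 2 * K + 3 * w * Real.log K1 ≤ K3 ^ w := by nlinarith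
      have h11 : (1 + 2 * K + 3 * w * Real.log K1) * (L ^ 2 + x) ≤ J / K1 ^ w :=
        (mul_le_mul_of_nonneg_right h10 (by positivity)).trans h8
      calc K1 ^ w * Real.exp (-(J / K1 ^ w))
          ≤ Real.exp (w * Real.log K1) *
            Real.exp (-((1 + 2 * K + 3 * w * Real.log K1) * (L ^ 2 + x))) := by
            rw [← e1]
            exact mul_le_mul_of_nonneg_left (Real.exp_le_exp.2 (neg_le_neg h11)) h0.le
        _ = Real.exp (w * Real.log K1 + -((1 + 2 * K + 3 * w * Real.log K1) * (L ^ 2 + x))) :=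
            (Real.exp_add _ _).symm
        _ ≤ Real.exp (-x + -(2 * (K * L ^ 2))) := by
            refine Real.exp_le_exp.2 ?_
            have hwl : 0 ≤ w * Real.log K1 := by positivity
            have p1 : 0 ≤ K * x := by positivity
            have p2 : 0 ≤ (w * Real.log K1) * x := by positivity
            nlinarith
        _ = _ := Real.exp_add _ _
    calc K1 ^ w * Real.exp (-(J / K1 ^ w)) * (cn n * cn m)
        ≤ (Real.exp (-x) * Real.exp (-(2 * (K * L ^ 2)))) *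
          (Real.exp (2 * (K * L ^ 2)) * cn (n + m)) := by
          refine mul_le_mul h6 h4 (by positivity) (by positivity)
      _ = Real.exp (-x) * (Real.exp (-(2 * (K * L ^ 2))) * Real.exp (2 * (K * L ^ 2))) *
          cn (n + m) := by ring
      _ = Real.exp (-x) * cn (n + m) := by
          rw [← Real.exp_add, neg_add_cancel, Real.exp_zero, mul_one]
      _ ≤ _ := mul_le_mul_of_nonneg_left h5 (Real.exp_pos _).le

end Run7.h738.NC
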